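import Pool.Agent.Q61.WE.Stm

/-!
# Project WE, job S_GW: one variable inequalities for the weight
-/

set_option autoImplicit false

namespace Pool.Agent.Q190.WE

open Pool.Agent.Q61.WE

theorem sqrt_mul_self_le {s : ℝ} (hs : 2 ≤ s) : √s * √s = s := Real.mul_self_sqrt (by linarith)

theorem gw_pos {L : ℝ} (hL : 0 < L) (y : ℝ) : 0 < gw L y := by
  unfold gw
  have h1 : 0 ≤ max y 0 := le_max_right _ _
  have h2 : 0 ≤ √(max y 0 + 2) := Real.sqrt_nonneg _
  positivity

theorem gw_mono {L : ℝ} (hL : 0 < L) {y z : ℝ} (hyz : y ≤ z) : gw L y ≤ gw L z := by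
  unfold gw
  have h1 : max y 0 ≤ max z 0 := max_le_max hyz le_rfl
  have h2 : √(max y 0 + 2) ≤ √(max z 0 + 2) := Real.sqrt_le_sqrt (by linarith)
  apply div_le_div_of_nonneg_right _ hL.le
  linarith

theorem gw_half {L : ℝ} (hL : 0 < L) {y : ℝ} (hy : 30 ≤ y) : gw L (y / 2) ≤ 73 / 100 * gw L y := by
  unfold gw
  rw [max_eq_left (by linarith : (0 : ℝ) ≤ y / 2), max_eq_left (by linarith : (0 : ℝ) ≤ y),
    ← mul_div_assoc]
  apply div_le_div_of_nonneg_right _ hL.le
  have h1 : √(y / 2 + 2) ≤ 73 / 100 * √(y + 2) := by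
    rw [Real.sqrt_le_left (by positivity), mul_pow, Real.sq_sqrt (by linarith)]
    linarith
  linarith

theorem gw_le30 {L : ℝ} (hL : 0 < L) {y : ℝ} (hy : y ≤ 30) : gw L y ≤ 89 / L := by
  unfold gw
  have h1 : max y 0 ≤ 30 := max_le hy (by norm_num)
  have h2 : √(max y 0 + 2) ≤ 57 / 10 := by
    rw [Real.sqrt_le_left (by norm_num)]
    linarith
  apply div_le_div_of_nonneg_right _ hL.le
  linarith

theorem t_GW : S_GW := by
  intro n L hn hL
  have hnr : (3 : ℝ) ≤ n := by exact_mod_cast hn
  have hn0 : (0 : ℝ) < n := by linarith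
  have hL0 : 0 < L := by nlinarith
  have hM : 3000 ≤ L / (2 * n) := by
    rw [le_div_iff₀ (by positivity)]
    linarith
  set M := L / (2 * (n : ℝ)) with hMdef
  have hgM : gw L M = (M + 2 + 10 * √(M + 2)) / L := by
    unfold gw
    rw [max_eq_left (by linarith)]
  have hS0 : 0 < M + 2 := by linarith
  have hsS : √(M + 2) * √(M + 2) = M + 2 := Real.mul_self_sqrt hS0.le
  have hsS0 : 0 < √(M + 2) := Real.sqrt_pos.2 hS0
  refine ⟨gw_pos hL0, fun y z h => gw_mono hL0 h, fun y h => gw_half hL0 h,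
    fun y h => gw_le30 hL0 h, ?_, ?_, ?_, ?_⟩
  · intro y hy1 hy2
    rw [hgM]
    unfold gw
    set s := max y 0 + 2 with hs
    have hs2 : 2 ≤ s := by
      have : 0 ≤ max y 0 := le_max_right _ _
      linarith
    have hys : y + 2 ≤ s := by
      have : y ≤ max y 0 := le_max_left _ _
      linarith
    have hsM : s ≤ M + 2 := by
      have : max y 0 ≤ M := max_le hy2 (by linarith)
      linarith
    have hss : √s * √s = s := Real.mul_self_sqrt (by linarith)
    have hs0 : 0 ≤ √s := Real.sqrt_nonneg _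
    have hle : √s ≤ √(M + 2) := Real.sqrt_le_sqrt hsM
    rw [← mul_div_assoc]
    apply div_le_div_of_nonneg_right _ hL0.le
    have h1 : (y + 2) / (M + 2) * (M + 2 + 10 * √(M + 2)) =
        (y + 2) + 10 * ((y + 2) / √(M + 2)) := by
      rw [mul_add, div_mul_cancel₀ _ hS0.ne']
      congr 1
      rw [div_mul_eq_mul_div, div_eq_iff hS0.ne', mul_assoc, div_mul_eq_mul_div]
      rw [mul_div_assoc', eq_div_iff hsS0.ne']
      linear_combination (10 * (y + 2)) * hsS
    rw [h1]
    have h2 : (y + 2) / √(M + 2) ≤ √s := by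
      rw [div_le_iff₀ hsS0]
      calc y + 2 ≤ s := hys
        _ = √s * √s := hss.symm
        _ ≤ √s * √(M + 2) := mul_le_mul_of_nonneg_left hle hs0
    linarith
  · intro y hy1 hy2
    rw [hgM]
    unfold gw
    rw [max_self]
    set s := max y 0 + 2 with hs
    have hs2 : 2 ≤ s := by
      have : 0 ≤ max y 0 := le_max_right _ _
      linarith
    have hys : y + 2 ≤ s := by
      have : y ≤ max y 0 := le_max_left _ _
      linarith
    have hss : √s * √s = s := Real.mul_self_sqrt (by linarith)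
    have hs0 : 0 ≤ √s := Real.sqrt_nonneg _
    have h1 : (y + 2) / (M + 2) * (M + 2 + 10 * √(M + 2)) =
        (y + 2) + 10 * ((y + 2) / √(M + 2)) := by
      rw [mul_add, div_mul_cancel₀ _ hS0.ne']
      congr 1
      rw [div_mul_eq_mul_div, div_eq_iff hS0.ne', mul_assoc, div_mul_eq_mul_div]
      rw [mul_div_assoc', eq_div_iff hsS0.ne']
      linear_combination (10 * (y + 2)) * hsS
    have hM55 : 54 ≤ √(M + 2) := by
      apply Real.le_sqrt_of_sq_le
      linarith
    have hsq2a : (141 / 100 : ℝ) ≤ √2 := by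
      apply Real.le_sqrt_of_sq_le
      norm_num
    have hsq2b : √2 ≤ 142 / 100 := by
      rw [Real.sqrt_le_left (by norm_num)]
      norm_num
    have hs141 : 141 / 100 ≤ √s := le_trans hsq2a (Real.sqrt_le_sqrt hs2)
    -- the main inequality
    have h2 : (y + 2) / √(M + 2) ≤ s / √(M + 2) := div_le_div_of_nonneg_right hys hsS0.le
    have h3 : 73 / 100 * (0 + 2 + 10 * √2) + 10 * (s / √(M + 2)) ≤ 10 * √s := by
      by_cases h8 : s ≤ 8
      · have h4 : s / √(M + 2) ≤ 15 / 100 := by
          rw [div_le_iff₀ hsS0]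
          linarith
        linarith
      · push Not at h8
        have h5 : √s ≤ √(M + 2) / 4 := by
          rw [Real.sqrt_le_left (by positivity), div_pow, Real.sq_sqrt hS0.le]
          linarith
        have h6 : s / √(M + 2) ≤ √s / 4 := by
          rw [div_le_iff₀ hsS0]
          calc s = √s * √s := hss.symm
            _ ≤ √s * (√(M + 2) / 4) := mul_le_mul_of_nonneg_left h5 hs0
            _ = √s / 4 * √(M + 2) := by ring
        have h7 : 28 / 10 ≤ √s := by
          apply Real.le_sqrt_of_sq_le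
          linarith
        linarith
    calc 73 / 100 * ((0 + 2 + 10 * √(0 + 2)) / L) + (y + 2) / (M + 2) * ((M + 2 + 10 * √(M + 2)) / L)
        = (73 / 100 * (0 + 2 + 10 * √2) + ((y + 2) + 10 * ((y + 2) / √(M + 2)))) / L := by
          rw [← h1, zero_add]
          ring
      _ ≤ (s + 10 * √s) / L := by
          apply div_le_div_of_nonneg_right _ hL0.le
          linarith
  · intro y hy
    unfold gw
    set s := max y 0 + 2 with hs
    have hs0 : 0 ≤ √s := Real.sqrt_nonneg _
    calc 1 / (32 * (n : ℝ)) = (M / 16) / L := by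
          rw [hMdef]
          field_simp
          norm_num
      _ ≤ (s + 10 * √s) / L := by
          apply div_le_div_of_nonneg_right _ hL0.le
          linarith
  · have h1 : 2848 * (n : ℝ) / L ≤ 1 / 2 := by
      rw [div_le_iff₀ hL0]
      linarith
    have h0 : 0 ≤ 2848 * (n : ℝ) / L := by positivity
    calc (2848 * (n : ℝ) / L) ^ (n - 1) ≤ (1 / 2) ^ (n - 1) := pow_le_pow_left₀ h0 h1 _
      _ ≤ (1 / 2) ^ 1 := pow_le_pow_of_le_one (by norm_num) (by norm_num) (by omega)
      _ = 1 / 2 := by norm_num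

end Pool.Agent.Q190.WE
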