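import Pool.Agent.Q61.WE.Stm

/-!
# Project WE, job S_IND: the main induction
-/

set_option autoImplicit false

namespace Pool.Agent.Q190.WE

open Pool.Agent.Q61.WE Finset

theorem phi_nonneg {n : ℕ} {L : ℝ} (hL : 0 < L) (x : Fin n → ℝ) (N : ℝ) : 0 ≤ Phi n L x N := by
  have h : ∀ y, 0 ≤ gw L y := by
    intro y
    unfold gw
    have h1 : 0 ≤ max y 0 := le_max_right _ _
    have h2 : 0 ≤ √(max y 0 + 2) := Real.sqrt_nonneg _
    positivity
  exact div_nonneg (prod_nonneg fun l _ => h _) (h 0)

theorem vp_nonneg {n : ℕ} {L : ℝ} (x : Fin n → ℝ) {N P : ℝ} (h : 0 ≤ P * N) : 0 ≤ Vp n L x N P := by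
  unfold Vp
  exact mul_nonneg (Real.rpow_nonneg h _) (le_max_left _ _)

/-- large states -/
theorem refine_big (hR : S_REF) (hK : S_KST) {n : ℕ} {lam Lam T : ℝ} (hn : 3 ≤ n) (hlam : 0 < lam)
    (hLam : lam ≤ Lam) (hL : 6000 * (n : ℝ) ≤ Lam / lam) (hT : 1 ≤ T) {z : Fin n → ℝ} {N P : ℝ}
    (hz : Sta n (Lam / lam) z N P) (h1 : T ^ 2 ≤ P * N) (h2 : P * N ≤ Lam / lam * T ^ 2) :
    Refine n lam Lam T z
      ((Lam / lam * T ^ 2) ^ (-epn n (Lam / lam)) * Vp n (Lam / lam) z N P) := by
  obtain ⟨-, r2, -, r4⟩ := hR n lam Lam T z hlam hLam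
  have hKK := (hK n lam Lam z N P hn hlam hLam hL hz).1
  have hL0 : 0 < Lam / lam := by
    have : (0 : ℝ) < n := by exact_mod_cast (by omega : 0 < n)
    nlinarith
  have hN := hz.hN
  have hP : 0 < P := lt_of_lt_of_le hN hz.hNP
  have hTP : T ≤ P := by
    have h3 : T ^ 2 ≤ P ^ 2 := by
      have : P * N ≤ P * P := mul_le_mul_of_nonneg_left hz.hNP hP.le
      nlinarith
    exact le_of_sq_le_sq h3 hP.le
  obtain ⟨k, hk⟩ := hz.hp
  have h3 := r2 hKK ⟨k, by rw [hk, abs_of_pos hP]; exact hTP⟩
  apply r4 1 _ _ h3
  set e := epn n (Lam / lam) with he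
  have he0 : 0 ≤ e := by
    rw [he]
    unfold epn
    have : 0 ≤ 2848 * (n : ℝ) / (Lam / lam) := by positivity
    positivity
  have hB : 0 < Lam / lam * T ^ 2 := by positivity
  have hPN : 0 ≤ P * N := by positivity
  unfold Vp
  have h4 : (P * N) ^ e ≤ (Lam / lam * T ^ 2) ^ e := Real.rpow_le_rpow hPN h2 he0
  have hA : 0 ≤ Ac n := by unfold Ac; positivity
  have h5 : max 0 (1 - Ac n * Phi n (Lam / lam) z N) ≤ 1 := by
    apply max_le zero_le_one
    have := mul_nonneg hA (phi_nonneg hL0 z N)
    linarith
  have h6 : (P * N) ^ e * max 0 (1 - Ac n * Phi n (Lam / lam) z N) ≤ (Lam / lam * T ^ 2) ^ e * 1 :=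
    mul_le_mul h4 h5 (le_max_left _ _) (Real.rpow_nonneg hB.le _)
  calc (Lam / lam * T ^ 2) ^ (-e) * ((P * N) ^ e * max 0 (1 - Ac n * Phi n (Lam / lam) z N))
      ≤ (Lam / lam * T ^ 2) ^ (-e) * ((Lam / lam * T ^ 2) ^ e * 1) :=
        mul_le_mul_of_nonneg_left h6 (Real.rpow_nonneg hB.le _)
    _ = 1 := by
        rw [mul_one, ← Real.rpow_add hB, neg_add_cancel, Real.rpow_zero]

theorem t_IND (hS : S_STEP) (hSp : S_SPLIT) (hR : S_REF) (hK : S_KST) : S_IND := by
  intro n lam Lam T x N P hn hlam hLam hL hT hx hPN
  have hn0 : (0 : ℝ) < n := by exact_mod_cast (by omega : 0 < n)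
  have hn3 : (3 : ℝ) ≤ n := by exact_mod_cast hn
  set L := Lam / lam with hLdef
  have hL0 : 0 < L := by nlinarith
  have hT2 : 0 < T ^ 2 := by positivity
  set κ := (L * T ^ 2) ^ (-epn n L) with hκ
  have hκ0 : 0 ≤ κ := Real.rpow_nonneg (by positivity) _
  have main : ∀ m : ℕ, ∀ k : ℕ, ∀ (x : Fin n → ℝ) (N P : ℝ), Sta n L x N P → P * N < T ^ 2 →
      T ^ 2 ≤ 2 ^ m * (P * N) → (univ.filter (fun l => x l < L * N / (2 * n))).card ≤ k →
      Refine n lam Lam T x (κ * Vp n L x N P) := by
    intro m
    induction m with
    | zero =>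
      intro k x N P _ h1 h2
      rw [pow_zero, one_mul] at h2
      exact absurd h1 (not_lt.2 h2)
    | succ m ihm =>
      intro k
      induction k with
      | zero =>
        intro x N P hx h1 h2 h3
        have hPN0 : 0 ≤ P * N := mul_nonneg (le_trans hx.hN.le hx.hNP) hx.hN.le
        rcases (vp_nonneg x hPN0).lt_or_eq with hV | hV
        · obtain ⟨i, _, hi2, _⟩ := hS n L x N P hn hL hx hV
          have h4 : i ∈ univ.filter (fun l => x l < L * N / (2 * n)) :=
            mem_filter.2 ⟨mem_univ i, hi2⟩
          have h5 := card_pos.2 ⟨i, h4⟩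
          omega
        · rw [← hV, mul_zero]
          exact (hR n lam Lam T x hlam hLam).1 (hK n lam Lam x N P hn hlam hLam hL hx).1
      | succ k ihk =>
        intro x N P hx h1 h2 h3
        have hPN0 : 0 ≤ P * N := mul_nonneg (le_trans hx.hN.le hx.hNP) hx.hN.le
        rcases (vp_nonneg x hPN0).lt_or_eq with hV | hV
        · obtain ⟨i, hi1, hi2, hSu, z, N', P', hzu, hSz, hPN', hVV⟩ := hS n L x N P hn hL hx hV
          have hPNz : 0 ≤ P' * N' := mul_nonneg (le_trans hSz.hN.le hSz.hNP) hSz.hN.le
          have hPNu : 0 ≤ L * N / (2 * n) * N :=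
            mul_nonneg (le_trans hSu.hN.le hSu.hNP) hSu.hN.le
          -- the successor `z`
          have hRz : Refine n lam Lam T z (κ * Vp n L z N' P') := by
            by_cases h4 : P' * N' < T ^ 2
            · apply ihm _ z N' P' hSz h4 _ le_rfl
              rw [hPN']
              calc T ^ 2 ≤ 2 ^ (m + 1) * (P * N) := h2
                _ = 2 ^ m * (2 * (P * N)) := by rw [pow_succ]; ring
            · push Not at h4
              apply refine_big hR hK hn hlam hLam hL hT hSz h4
              rw [hPN']
              nlinarith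
          -- the successor `u`
          have hRu : Refine n lam Lam T (Function.update x i (L * N / (2 * n)))
              (κ * Vp n L (Function.update x i (L * N / (2 * n))) N (L * N / (2 * n))) := by
            by_cases h4 : L * N / (2 * n) * N < T ^ 2
            · apply ihk _ N _ hSu h4
              · refine le_trans h2 (mul_le_mul_of_nonneg_left ?_ (by positivity))
                exact mul_le_mul_of_nonneg_right hx.hcap hx.hN.le
              · have h5 : univ.filter (fun l => Function.update x i (L * N / (2 * n)) l <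
                    L * N / (2 * n)) ⊆
                    (univ.filter (fun l => x l < L * N / (2 * n))).erase i := by
                  intro l hl
                  rw [mem_filter] at hl
                  have hli : l ≠ i := by
                    rintro rfl
                    rw [Function.update_self] at hl
                    exact lt_irrefl _ hl.2
                  rw [Function.update_of_ne hli] at hl
                  exact mem_erase.2 ⟨hli, mem_filter.2 hl⟩
                have h6 := card_le_card h5
                rw [card_erase_of_mem (mem_filter.2 ⟨mem_univ i, hi2⟩)] at h6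
                omega
            · push Not at h4
              apply refine_big hR hK hn hlam hLam hL hT hSu h4
              have h5 : L * N / (2 * n) * N = L * (N * N) / (2 * n) := by ring
              rw [h5, div_le_iff₀ (by positivity)]
              have h6 : N * N ≤ T ^ 2 := by
                have : N * N ≤ P * N := mul_le_mul_of_nonneg_right hx.hNP hx.hN.le
                linarith
              calc L * (N * N) ≤ L * T ^ 2 := mul_le_mul_of_nonneg_left h6 hL0.le
                _ ≤ L * T ^ 2 * (2 * n) := by
                    have : 0 ≤ L * T ^ 2 := by positivity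
                    nlinarith
          -- the matrix `update x i a`
          have hKz := hK n lam Lam z N' P' hn hlam hLam hL hSz
          have hKu := (hK n lam Lam _ _ _ hn hlam hLam hL hSu).1
          have hKa : KK lam Lam (Matrix.diagonal (Function.update x i (-(2 * N)))) := by
            rcases hzu with h | h
            · rw [← h]; exact hKz.1
            · have h5 : Function.update x i (-(2 * N)) = -z := by rw [h, neg_neg]
              rw [h5]; exact hKz.2
          have hRa : Refine n lam Lam T (Function.update x i (-(2 * N))) (κ * Vp n L z N' P') := by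
            rcases hzu with h | h
            · rw [← h]; exact hRz
            · have h5 : Function.update x i (-(2 * N)) = -z := by rw [h, neg_neg]
              rw [h5]
              exact (hR n lam Lam T z hlam hLam).2.2.1 _ hRz
          have h7 := hSp n lam Lam T x i (-(2 * N)) (L * N / (2 * n)) (κ * Vp n L z N' P')
            (κ * Vp n L (Function.update x i (L * N / (2 * n))) N (L * N / (2 * n)))
            hlam hLam hi1 hi2 (mul_nonneg hκ0 (vp_nonneg z hPNz))
            (mul_nonneg hκ0 (vp_nonneg _ hPNu)) hKa hKu hRa hRu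
          apply (hR n lam Lam T x hlam hLam).2.2.2 _ _ _ h7
          have h8 := mul_le_mul_of_nonneg_left hVV hκ0
          calc κ * Vp n L x N P ≤ κ * ((L * N / (2 * n) - x i) / (L * N / (2 * n) - -(2 * N)) *
                Vp n L z N' P' + (x i - -(2 * N)) / (L * N / (2 * n) - -(2 * N)) *
                Vp n L (Function.update x i (L * N / (2 * n))) N (L * N / (2 * n))) := h8
            _ = _ := by ring
        · rw [← hV, mul_zero]
          exact (hR n lam Lam T x hlam hLam).1 (hK n lam Lam x N P hn hlam hLam hL hx).1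
  have hPN0 : 0 < P * N := mul_pos (lt_of_lt_of_le hx.hN hx.hNP) hx.hN
  obtain ⟨m, hm⟩ := pow_unbounded_of_one_lt (T ^ 2 / (P * N)) (one_lt_two : (1 : ℝ) < 2)
  refine main m _ x N P hx hPN ?_ le_rfl
  rw [div_lt_iff₀ hPN0] at hm
  exact hm.le

end Pool.Agent.Q190.WE
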