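import Pool.Agent.Q61.WE.Stm

/-!
# Project WE, job S_KST: states give matrices in the open cone
-/

set_option autoImplicit false

namespace Pool.Agent.Q190.WE

open Pool.Agent.Q61.WE

theorem t_KST (hP : S_PUC) : S_KST := by
  intro n lam Lam x N P hn hlam hLam hL hx
  obtain ⟨-, hdiag, -, -⟩ := hP n lam Lam hlam hLam
  obtain ⟨hN, hlo, ⟨j, hj⟩, hup, ⟨p, hp⟩, hNP, hcap⟩ := hx
  have hnr : (3 : ℝ) ≤ n := by exact_mod_cast hn
  have hn0 : (0 : ℝ) < n := by linarith
  have hLam0 : 0 < Lam := by linarith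
  have hLn : 6000 * (n : ℝ) * lam ≤ Lam := by
    rw [le_div_iff₀ hlam] at hL
    exact hL
  -- bounds of the positive and the negative part
  have hpos1 : ∑ i, max (x i) 0 ≤ n * P := by
    calc ∑ i, max (x i) 0 ≤ ∑ _i : Fin n, P :=
          Finset.sum_le_sum (fun i _ => max_le (hup i) (by linarith))
      _ = n * P := by rw [Finset.sum_const, Finset.card_univ, Fintype.card_fin, nsmul_eq_mul]
  have hpos2 : P ≤ ∑ i, max (x i) 0 := by
    calc P = x p := hp.symm
      _ ≤ max (x p) 0 := le_max_left _ _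
      _ ≤ ∑ i, max (x i) 0 := Finset.single_le_sum (f := fun i => max (x i) 0)
          (fun i _ => le_max_right _ _) (Finset.mem_univ p)
  have hneg1 : ∑ i, max (-x i) 0 ≤ n * N := by
    calc ∑ i, max (-x i) 0 ≤ ∑ _i : Fin n, N :=
          Finset.sum_le_sum (fun i _ => max_le (by linarith [hlo i]) (by linarith))
      _ = n * N := by rw [Finset.sum_const, Finset.card_univ, Fintype.card_fin, nsmul_eq_mul]
  have hneg2 : N ≤ ∑ i, max (-x i) 0 := by
    calc N = -x j := by rw [hj, neg_neg]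
      _ ≤ max (-x j) 0 := le_max_left _ _
      _ ≤ ∑ i, max (-x i) 0 := Finset.single_le_sum (f := fun i => max (-x i) 0)
          (fun i _ => le_max_right _ _) (Finset.mem_univ j)
  have hnP : lam * (n * P) ≤ Lam * N / 2 := by
    have h1 : n * P ≤ Lam / lam * N / 2 := by
      rw [le_div_iff₀ (by positivity)] at hcap
      linarith
    calc lam * (n * P) ≤ lam * (Lam / lam * N / 2) := mul_le_mul_of_nonneg_left h1 hlam.le
      _ = Lam * N / 2 := by
          field_simp
  have h1 : lam * ∑ i, max (x i) 0 < Lam * ∑ i, max (-x i) 0 := by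
    calc lam * ∑ i, max (x i) 0 ≤ lam * (n * P) := mul_le_mul_of_nonneg_left hpos1 hlam.le
      _ ≤ Lam * N / 2 := hnP
      _ < Lam * N := by
          have : 0 < Lam * N := by positivity
          linarith
      _ ≤ Lam * ∑ i, max (-x i) 0 := mul_le_mul_of_nonneg_left hneg2 hLam0.le
  have h2 : lam * ∑ i, max (-x i) 0 < Lam * ∑ i, max (x i) 0 := by
    calc lam * ∑ i, max (-x i) 0 ≤ lam * (n * N) := mul_le_mul_of_nonneg_left hneg1 hlam.le
      _ < Lam * N := by
          have h3 : n * lam < Lam := by nlinarith [mul_pos hn0 hlam]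
          calc lam * (n * N) = (n * lam) * N := by ring
            _ < Lam * N := mul_lt_mul_of_pos_right h3 hN
      _ ≤ Lam * P := mul_le_mul_of_nonneg_left hNP hLam0.le
      _ ≤ Lam * ∑ i, max (x i) 0 := mul_le_mul_of_nonneg_left hpos2 hLam0.le
  obtain ⟨hd1, hd2⟩ := hdiag x
  obtain ⟨hd3, hd4⟩ := hdiag (-x)
  have h5 : ∀ i, -(-x) i = x i := fun i => neg_neg _
  simp only [h5] at hd3 hd4
  have h6 : ∀ i, (-x) i = -x i := fun i => rfl
  simp only [h6] at hd3 hd4
  have hdi : ∀ y : Fin n → ℝ, (Matrix.diagonal y).IsHermitian := fun y =>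
    Matrix.isHermitian_diagonal y
  refine ⟨⟨hdi x, ?_, ?_⟩, ⟨hdi (-x), ?_, ?_⟩⟩
  · rw [hd1]; linarith
  · rw [hd2]; linarith
  · rw [hd3]; linarith
  · rw [hd4]; linarith

end Pool.Agent.Q190.WE
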