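import Pool.Agent.Q190.WE.GW

/-!
# Project WE, job S_STEP: one step of the strategy
-/

set_option autoImplicit false

namespace Pool.Agent.Q190.WE

open Pool.Agent.Q61.WE Finset

theorem gw_neg (L : ℝ) {y : ℝ} (hy : y ≤ 0) : gw L y = gw L 0 := by
  unfold gw
  rw [max_eq_right hy, max_self]

theorem prod_two {n : ℕ} (f : Fin n → ℝ) {i j : Fin n} (hij : i ≠ j) :
    ∏ l, f l = f j * (f i * ∏ l ∈ (univ.erase j).erase i, f l) := by
  rw [mul_prod_erase (univ.erase j) f (mem_erase.2 ⟨hij, mem_univ i⟩),
    mul_prod_erase univ f (mem_univ j)]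

theorem card_two {n : ℕ} {i j : Fin n} (hij : i ≠ j) : ((univ.erase j).erase i).card = n - 2 := by
  rw [card_erase_of_mem (mem_erase.2 ⟨hij, mem_univ i⟩), card_erase_of_mem (mem_univ j), card_univ,
    Fintype.card_fin]
  omega

/-- weights at most 30 with one nonpositive argument -/
theorem phi_le {n : ℕ} {L : ℝ} (hL : 0 < L) (w : Fin n → ℝ) (p : Fin n) (hp : w p ≤ 0)
    (hw : ∀ l, w l ≤ 30) : (∏ l, gw L (w l)) / gw L 0 ≤ (89 / L) ^ (n - 1) := by
  have h0 := gw_pos hL 0
  rw [← mul_prod_erase univ (fun l => gw L (w l)) (mem_univ p), gw_neg L hp, mul_comm,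
    mul_div_assoc, div_self h0.ne', mul_one]
  calc ∏ l ∈ univ.erase p, gw L (w l) ≤ ∏ _l ∈ univ.erase p, (89 / L) :=
        prod_le_prod (fun l _ => (gw_pos hL _).le) (fun l _ => gw_le30 hL (hw l))
    _ = (89 / L) ^ (n - 1) := by
        rw [prod_const, card_erase_of_mem (mem_univ p), card_univ, Fintype.card_fin]

theorem vp_lower {n : ℕ} {L : ℝ} {z : Fin n → ℝ} {N' P' Q : ℝ} (he : 0 ≤ epn n L)
    (hQ : 0 ≤ Q) (hPN : Q ≤ P' * N') (c : ℝ) (hc : c ≤ 1 - Ac n * Phi n L z N') :
    Q ^ epn n L * c ≤ Vp n L z N' P' := by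
  unfold Vp
  have h1 : Q ^ epn n L ≤ (P' * N') ^ epn n L := Real.rpow_le_rpow hQ hPN he
  have h2 : 0 ≤ Q ^ epn n L := Real.rpow_nonneg hQ _
  have h3 : c ≤ max 0 (1 - Ac n * Phi n L z N') := le_trans hc (le_max_right _ _)
  have h4 : (0 : ℝ) ≤ max 0 (1 - Ac n * Phi n L z N') := le_max_left _ _
  calc Q ^ epn n L * c ≤ Q ^ epn n L * max 0 (1 - Ac n * Phi n L z N') :=
        mul_le_mul_of_nonneg_left h3 h2
    _ ≤ _ := mul_le_mul_of_nonneg_right h1 h4

theorem t_STEP (hG : S_GW) : S_STEP := by
  intro n L x N P hn hL hx hV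
  obtain ⟨hpos, hmono, hhalf, h30, h5, h6, h7, h8⟩ := hG n L hn hL
  obtain ⟨hN, hlo, ⟨j, hj⟩, hup, ⟨p0, hp0⟩, hNP, hcap⟩ := hx
  have hnr : (3 : ℝ) ≤ n := by exact_mod_cast hn
  have hn0 : (0 : ℝ) < n := by linarith
  have hL0 : 0 < L := by nlinarith
  have hM : 3000 ≤ L / (2 * n) := by
    rw [le_div_iff₀ (by positivity)]
    linarith
  have hP0 : 0 < P := by linarith
  -- the index `i`
  have hne : (univ.erase j : Finset (Fin n)).Nonempty := by
    rw [← card_pos, card_erase_of_mem (mem_univ j), card_univ, Fintype.card_fin]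
    omega
  obtain ⟨i, hi, himin⟩ := exists_min_image (univ.erase j) x hne
  have hij : i ≠ j := (mem_erase.1 hi).1
  have himin' : ∀ l, l ≠ j → x i ≤ x l := fun l hl => himin l (mem_erase.2 ⟨hl, mem_univ l⟩)
  -- the index `p`
  obtain ⟨p, hpi, hpj, hp⟩ : ∃ p, p ≠ i ∧ p ≠ j ∧ x p = P := by
    have hp0j : p0 ≠ j := by
      rintro rfl
      rw [hp0] at hj
      linarith
    by_cases h : p0 = i
    · have hne2 : ((univ.erase j).erase i : Finset (Fin n)).Nonempty := by
        rw [← card_pos, card_two hij]
        omega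
      obtain ⟨p, hp⟩ := hne2
      rw [mem_erase, mem_erase] at hp
      refine ⟨p, hp.1, hp.2.1, le_antisymm (hup p) ?_⟩
      rw [← hp0, h]
      exact himin' p hp.2.1
    · exact ⟨p0, h, hp0j, hp0⟩
  -- notation
  set M := L / (2 * (n : ℝ)) with hMdef
  have hb : L * N / (2 * n) = M * N := by rw [hMdef]; ring
  rw [hb] at hcap ⊢
  set y : Fin n → ℝ := fun l => x l / N with hy
  have hyx : ∀ l, x l = y l * N := fun l => by rw [hy]; field_simp
  have hyj : y j = -1 := by rw [hy]; simp only; rw [hj, neg_div, div_self hN.ne']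
  have hylo : ∀ l, -1 ≤ y l := by
    intro l
    rw [hy]; simp only; rw [le_div_iff₀ hN]
    linarith [hlo l]
  have hyM : ∀ l, y l ≤ M := by
    intro l
    rw [hy]; simp only; rw [div_le_iff₀ hN]
    linarith [hup l]
  set R := ∏ l ∈ (univ.erase j).erase i, gw L (y l) with hR
  have hR0 : 0 ≤ R := prod_nonneg fun l _ => (hpos _).le
  have hg0 := hpos 0
  have hA0 : 0 < Ac n := by unfold Ac; positivity
  -- Phi x
  have hPx : Phi n L x N = gw L (y i) * R := by
    unfold Phi
    rw [prod_two (fun l => gw L (x l / N)) hij]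
    change gw L (y j) * (gw L (y i) * R) / gw L 0 = _
    rw [hyj, gw_neg L (by norm_num : (-1 : ℝ) ≤ 0)]
    field_simp
  -- Phi u
  have hPu : Phi n L (Function.update x i (M * N)) N = gw L M * R := by
    unfold Phi
    rw [prod_two (fun l => gw L (Function.update x i (M * N) l / N)) hij]
    have h1 : Function.update x i (M * N) j / N = y j := by
      rw [Function.update_of_ne hij.symm]
    have h2 : Function.update x i (M * N) i / N = M := by
      rw [Function.update_self, mul_div_assoc, div_self hN.ne', mul_one]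
    have h3 : ∏ l ∈ (univ.erase j).erase i, gw L (Function.update x i (M * N) l / N) = R := by
      apply prod_congr rfl
      intro l hl
      rw [Function.update_of_ne (mem_erase.1 hl).1]
    rw [h1, h2, h3, hyj, gw_neg L (by norm_num : (-1 : ℝ) ≤ 0)]
    field_simp
  -- positivity of `Vp` gives `Ac * Phi < 1`
  have hPN0 : 0 < P * N := by positivity
  have hAPhi : Ac n * Phi n L x N < 1 := by
    by_contra hcon
    push Not at hcon
    unfold Vp at hV
    rw [max_eq_left (by linarith), mul_zero] at hV
    exact lt_irrefl _ hV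
  have hVx : Vp n L x N P = (P * N) ^ epn n L * (1 - Ac n * (gw L (y i) * R)) := by
    unfold Vp
    rw [max_eq_right (by linarith), hPx]
  -- the small entry
  have hs : max (y i) 0 + 2 ≤ (M + 2) / 16 := by
    by_contra hcon
    push Not at hcon
    have h1 := h7 (y i) hcon
    have h2 : ∀ l ∈ univ.erase j, 1 / (32 * (n : ℝ)) ≤ gw L (y l) := by
      intro l hl
      refine le_trans h1 (hmono _ _ ?_)
      rw [hy]
      exact div_le_div_of_nonneg_right (himin' l (mem_erase.1 hl).1) hN.le
    have h3 : (1 / (32 * (n : ℝ))) ^ (n - 1) ≤ Phi n L x N := by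
      unfold Phi
      rw [← mul_prod_erase univ (fun l => gw L (x l / N)) (mem_univ j)]
      change _ ≤ gw L (y j) * (∏ l ∈ univ.erase j, gw L (y l)) / gw L 0
      rw [hyj, gw_neg L (by norm_num : (-1 : ℝ) ≤ 0), mul_div_cancel_left₀ _ hg0.ne']
      calc (1 / (32 * (n : ℝ))) ^ (n - 1) = ∏ _l ∈ univ.erase j, (1 / (32 * (n : ℝ))) := by
            rw [prod_const, card_erase_of_mem (mem_univ j), card_univ, Fintype.card_fin]
        _ ≤ _ := prod_le_prod (fun l _ => by positivity) h2
    have h4 : Ac n * (1 / (32 * (n : ℝ))) ^ (n - 1) = 1 := by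
      unfold Ac
      rw [← mul_pow, mul_one_div_cancel (by positivity), one_pow]
    have h5' := mul_le_mul_of_nonneg_left h3 hA0.le
    rw [h4] at h5'
    linarith
  have hyiM : y i < M := by
    have : y i ≤ max (y i) 0 := le_max_left _ _
    linarith
  have hxi1 : -(2 * N) < x i := by linarith [hlo i]
  have hxi2 : x i < M * N := by
    rw [hyx i]
    exact mul_lt_mul_of_pos_right hyiM hN
  have hMN : N ≤ M * N := by nlinarith
  have hD : M * N - -(2 * N) = (M + 2) * N := by ring
  have hM2 : 0 < M + 2 := by linarith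
  set q := (y i + 2) / (M + 2) with hq
  have hq1 : (x i - -(2 * N)) / (M * N - -(2 * N)) = q := by
    rw [hD, hq, hyx i]
    field_simp
    ring
  have hq2 : (M * N - x i) / (M * N - -(2 * N)) = 1 - q := by
    rw [hD, hq, hyx i]
    field_simp
    ring
  have hq0 : 0 ≤ q := div_nonneg (by linarith [hylo i]) hM2.le
  have hq1' : q ≤ 1 := by
    rw [hq, div_le_one hM2]
    linarith
  -- the exponent
  set a := (2848 * (n : ℝ) / L) ^ (n - 1) with ha
  have ha0 : 0 ≤ a := by positivity
  have heps : epn n L = 20 * a := rfl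
  have he : 0 ≤ epn n L := by rw [heps]; positivity
  have hAa : Ac n * (89 / L) ^ (n - 1) = a := by
    unfold Ac
    rw [← mul_pow, ha]
    congr 1
    ring
  -- the state `u`
  have hSu : Sta n L (Function.update x i (M * N)) N (M * N) := by
    refine ⟨hN, ?_, ⟨j, ?_⟩, ?_, ⟨i, Function.update_self ..⟩, hMN, ?_⟩
    · intro l
      by_cases hl : l = i
      · rw [hl, Function.update_self]; linarith
      · rw [Function.update_of_ne hl]; exact hlo l
    · rw [Function.update_of_ne hij.symm]; exact hj
    · intro l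
      by_cases hl : l = i
      · rw [hl, Function.update_self]
      · rw [Function.update_of_ne hl]; linarith [hup l]
    · rw [hb]
  refine ⟨i, hxi1, hxi2, hSu, ?_⟩
  rw [hq1, hq2]
  have hVu : (P * N) ^ epn n L * (1 - Ac n * (gw L M * R)) ≤
      Vp n L (Function.update x i (M * N)) N (M * N) := by
    apply vp_lower he hPN0.le
    · exact mul_le_mul_of_nonneg_right hcap hN.le
    · rw [hPu]
  have hPe0 : 0 ≤ (P * N) ^ epn n L := Real.rpow_nonneg hPN0.le _
  have hq5 : q * gw L M ≤ gw L (y i) := h5 (y i) (hylo i) (hyM i)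
  -- the final inequality in the second case
  have caseII : ∀ (z : Fin n → ℝ) (N' P' : ℝ), P' * N' = 2 * (P * N) → P < 30 * N →
      Phi n L z N' ≤ (89 / L) ^ (n - 1) →
      Vp n L x N P ≤ (1 - q) * Vp n L z N' P' +
        q * Vp n L (Function.update x i (M * N)) N (M * N) := by
    intro z N' P' hPN' hP30 hPz
    have hy30 : ∀ l, y l ≤ 30 := by
      intro l
      rw [hy]; simp only; rw [div_le_iff₀ hN]
      linarith [hup l]
    have hPhix : Phi n L x N ≤ (89 / L) ^ (n - 1) := by
      unfold Phi
      exact phi_le hL0 (fun l => x l / N) j (by change y j ≤ 0; rw [hyj]; norm_num) hy30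
    have hVz : (2 * (P * N)) ^ epn n L * (1 - a) ≤ Vp n L z N' P' := by
      apply vp_lower he (by positivity) hPN'.ge
      have := mul_le_mul_of_nonneg_left hPz hA0.le
      rw [hAa] at this
      linarith
    have h2e : 1 + 138 / 10 * a ≤ (2 : ℝ) ^ epn n L := by
      rw [Real.rpow_def_of_pos (by norm_num), heps]
      have h1 := Real.add_one_le_exp (Real.log 2 * (20 * a))
      have h2 := Real.log_two_gt_d9
      nlinarith
    rw [Real.mul_rpow (by norm_num) hPN0.le] at hVz
    have hqR : Ac n * (q * gw L M * R) ≤ a := by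
      rw [← hAa]
      apply mul_le_mul_of_nonneg_left _ hA0.le
      calc q * gw L M * R ≤ gw L (y i) * R := mul_le_mul_of_nonneg_right hq5 hR0
        _ = Phi n L x N := hPx.symm
        _ ≤ _ := hPhix
    have hqs : q ≤ 2 / 100 := by
      rw [hq, div_le_iff₀ hM2]
      linarith [hy30 i]
    have hX : 1 + 59 / 10 * a ≤ (2 : ℝ) ^ epn n L * (1 - a) := by
      have h1 : (1 + 138 / 10 * a) * (1 - a) ≤ (2 : ℝ) ^ epn n L * (1 - a) :=
        mul_le_mul_of_nonneg_right h2e (by linarith)
      nlinarith
    have hkey : 1 ≤ (1 - q) * ((2 : ℝ) ^ epn n L * (1 - a)) + q * (1 - Ac n * (gw L M * R)) := by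
      have h1 : (1 - q) * (1 + 59 / 10 * a) ≤ (1 - q) * ((2 : ℝ) ^ epn n L * (1 - a)) :=
        mul_le_mul_of_nonneg_left hX (by linarith)
      have h2 : q * (1 - Ac n * (gw L M * R)) = q - Ac n * (q * gw L M * R) := by ring
      rw [h2]
      nlinarith
    have hVx1 : Vp n L x N P ≤ (P * N) ^ epn n L * 1 := by
      rw [hVx]
      apply mul_le_mul_of_nonneg_left _ hPe0
      have h1 : 0 ≤ Ac n * (gw L (y i) * R) :=
        mul_nonneg hA0.le (mul_nonneg (hpos _).le hR0)
      linarith
    calc Vp n L x N P ≤ (P * N) ^ epn n L * 1 := hVx1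
      _ ≤ (P * N) ^ epn n L * ((1 - q) * ((2 : ℝ) ^ epn n L * (1 - a)) +
          q * (1 - Ac n * (gw L M * R))) := mul_le_mul_of_nonneg_left hkey hPe0
      _ = (1 - q) * ((2 : ℝ) ^ epn n L * (P * N) ^ epn n L * (1 - a)) +
          q * ((P * N) ^ epn n L * (1 - Ac n * (gw L M * R))) := by ring
      _ ≤ _ := by
          have h1 := mul_le_mul_of_nonneg_left hVz (by linarith : 0 ≤ 1 - q)
          have h2 := mul_le_mul_of_nonneg_left hVu hq0
          linarith
  by_cases hP2 : 2 * N ≤ P
  · -- no sign change
    have hSz : Sta n L (Function.update x i (-(2 * N))) (2 * N) P := by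
      refine ⟨by linarith, ?_, ⟨i, Function.update_self ..⟩, ?_, ⟨p, ?_⟩, hP2, ?_⟩
      · intro l
        by_cases hl : l = i
        · rw [hl, Function.update_self]
        · rw [Function.update_of_ne hl]; linarith [hlo l]
      · intro l
        by_cases hl : l = i
        · rw [hl, Function.update_self]; linarith
        · rw [Function.update_of_ne hl]; exact hup l
      · rw [Function.update_of_ne hpi]; exact hp
      · have h1 : L * (2 * N) / (2 * n) = 2 * (M * N) := by rw [hMdef]; ring
        rw [h1]
        have : 0 ≤ M * N := by positivity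
        linarith
    refine ⟨Function.update x i (-(2 * N)), 2 * N, P, Or.inl rfl, hSz, by ring, ?_⟩
    by_cases hP30 : P < 30 * N
    · apply caseII _ _ _ (by ring) hP30
      unfold Phi
      apply phi_le hL0 (fun l => Function.update x i (-(2 * N)) l / (2 * N)) i
      · simp only [Function.update_self]
        rw [neg_div, div_self (by positivity)]
        norm_num
      · intro l
        rw [div_le_iff₀ (by linarith)]
        linarith [hSz.hup l]
    · push Not at hP30
      have hPz : Phi n L (Function.update x i (-(2 * N))) (2 * N) ≤ 73 / 100 * gw L 0 * R := by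
        unfold Phi
        rw [prod_two (fun l => gw L (Function.update x i (-(2 * N)) l / (2 * N))) hij]
        have h1 : Function.update x i (-(2 * N)) j / (2 * N) ≤ 0 := by
          rw [Function.update_of_ne hij.symm, hj]
          apply div_nonpos_of_nonpos_of_nonneg <;> linarith
        have h2 : Function.update x i (-(2 * N)) i / (2 * N) ≤ 0 := by
          rw [Function.update_self]
          apply div_nonpos_of_nonpos_of_nonneg <;> linarith
        have h3 : ∏ l ∈ (univ.erase j).erase i, gw L (Function.update x i (-(2 * N)) l / (2 * N)) =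
            ∏ l ∈ (univ.erase j).erase i, gw L (y l / 2) := by
          apply prod_congr rfl
          intro l hl
          rw [Function.update_of_ne (mem_erase.1 hl).1, hy]
          congr 1
          field_simp
        rw [gw_neg L h1, gw_neg L h2, h3]
        have h4 : ∏ l ∈ (univ.erase j).erase i, gw L (y l / 2) ≤ 73 / 100 * R := by
          have hpm : p ∈ (univ.erase j).erase i :=
            mem_erase.2 ⟨hpi, mem_erase.2 ⟨hpj, mem_univ p⟩⟩
          rw [hR, ← mul_prod_erase _ (fun l => gw L (y l / 2)) hpm,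
            ← mul_prod_erase _ (fun l => gw L (y l)) hpm, ← mul_assoc]
          apply mul_le_mul
          · apply hhalf
            rw [hy]; simp only; rw [hp, le_div_iff₀ hN]
            linarith
          · apply prod_le_prod (fun l _ => (hpos _).le)
            intro l _
            by_cases h0 : 0 ≤ y l
            · exact hmono _ _ (by linarith)
            · push Not at h0
              rw [gw_neg L h0.le, gw_neg L (by linarith : y l / 2 ≤ 0)]
          · exact prod_nonneg fun l _ => (hpos _).le
          · exact mul_nonneg (by norm_num) (hpos _).le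
        rw [mul_div_assoc, mul_comm]
        calc gw L 0 * (∏ l ∈ (univ.erase j).erase i, gw L (y l / 2)) / gw L 0 * gw L 0
            = gw L 0 * ∏ l ∈ (univ.erase j).erase i, gw L (y l / 2) := by field_simp
          _ ≤ gw L 0 * (73 / 100 * R) := mul_le_mul_of_nonneg_left h4 hg0.le
          _ = _ := by ring
      have hVz : (P * N) ^ epn n L * (1 - Ac n * (73 / 100 * gw L 0 * R)) ≤
          Vp n L (Function.update x i (-(2 * N))) (2 * N) P := by
        apply vp_lower he hPN0.le
        · nlinarith
        · have := mul_le_mul_of_nonneg_left hPz hA0.le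
          linarith
      have h6' : 73 / 100 * gw L 0 + q * gw L M ≤ gw L (y i) := h6 (y i) (hylo i) hs
      have hkey : (1 - q) * (73 / 100 * gw L 0 * R) + q * (gw L M * R) ≤ gw L (y i) * R := by
        have h1 : 0 ≤ q * (73 / 100 * gw L 0 * R) :=
          mul_nonneg hq0 (mul_nonneg (mul_nonneg (by norm_num) hg0.le) hR0)
        have h2 := mul_le_mul_of_nonneg_right h6' hR0
        nlinarith
      have hkey2 := mul_le_mul_of_nonneg_left hkey hA0.le
      calc Vp n L x N P = (P * N) ^ epn n L * (1 - Ac n * (gw L (y i) * R)) := hVx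
        _ ≤ (P * N) ^ epn n L * ((1 - q) * (1 - Ac n * (73 / 100 * gw L 0 * R)) +
            q * (1 - Ac n * (gw L M * R))) := by
            apply mul_le_mul_of_nonneg_left _ hPe0
            linarith
        _ = (1 - q) * ((P * N) ^ epn n L * (1 - Ac n * (73 / 100 * gw L 0 * R))) +
            q * ((P * N) ^ epn n L * (1 - Ac n * (gw L M * R))) := by ring
        _ ≤ _ := by
            have h1 := mul_le_mul_of_nonneg_left hVz (by linarith : 0 ≤ 1 - q)
            have h2 := mul_le_mul_of_nonneg_left hVu hq0
            linarith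
  · -- sign change
    push Not at hP2
    have hz : ∀ l, (-Function.update x i (-(2 * N))) l = -(Function.update x i (-(2 * N)) l) :=
      fun l => rfl
    have hSz : Sta n L (-Function.update x i (-(2 * N))) P (2 * N) := by
      refine ⟨hP0, ?_, ⟨p, ?_⟩, ?_, ⟨i, ?_⟩, hP2.le, ?_⟩
      · intro l
        rw [hz]
        by_cases hl : l = i
        · rw [hl, Function.update_self]; linarith
        · rw [Function.update_of_ne hl]; linarith [hup l]
      · rw [hz, Function.update_of_ne hpi, hp]
      · intro l
        rw [hz]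
        by_cases hl : l = i
        · rw [hl, Function.update_self]; linarith
        · rw [Function.update_of_ne hl]; linarith [hlo l]
      · rw [hz, Function.update_self]; ring
      · have h1 : L * P / (2 * n) = M * P := by rw [hMdef]; ring
        rw [h1]
        nlinarith
    refine ⟨-Function.update x i (-(2 * N)), P, 2 * N, Or.inr rfl, hSz, by ring, ?_⟩
    apply caseII _ _ _ (by ring) (by linarith)
    unfold Phi
    apply phi_le hL0 (fun l => (-Function.update x i (-(2 * N))) l / P) p
    · simp only [hz]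
      rw [Function.update_of_ne hpi, hp, neg_div, div_self hP0.ne']
      norm_num
    · intro l
      rw [div_le_iff₀ hP0]
      have := hSz.hup l
      linarith

end Pool.Agent.Q190.WE
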